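import Pool.Agent.N236.UB.Stm

set_option autoImplicit false

namespace Pool.Agent.N624.UB

open NumberField IsDedekindDomain IsDedekindDomain.HeightOneSpectrum WithZero

open NumberField.HeightOneSpectrum

section

variable {L : Type} [Field L] [NumberField L] (P : HeightOneSpectrum (𝓞 L))

theorem abv_le_iff (x y : L) : NumberField.HeightOneSpectrum.adicAbv L P x ≤ NumberField.HeightOneSpectrum.adicAbv L P y ↔
    P.valuation L x ≤ P.valuation L y := by
  rw [adicAbv_def, adicAbv_def, NNReal.coe_le_coe]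
  exact (WithZeroMulInt.toNNReal_strictMono (one_lt_absNorm_nnreal P)).le_iff_le

theorem abv_lt_iff (x y : L) : NumberField.HeightOneSpectrum.adicAbv L P x < NumberField.HeightOneSpectrum.adicAbv L P y ↔
    P.valuation L x < P.valuation L y := by
  rw [adicAbv_def, adicAbv_def, NNReal.coe_lt_coe]
  exact (WithZeroMulInt.toNNReal_strictMono (one_lt_absNorm_nnreal P)).lt_iff_lt

theorem abv_le_one_iff (x : L) : NumberField.HeightOneSpectrum.adicAbv L P x ≤ 1 ↔ P.valuation L x ≤ 1 := by
  have := abv_le_iff P x 1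
  rwa [map_one, map_one] at this

theorem abv_lt_one_iff (x : L) : NumberField.HeightOneSpectrum.adicAbv L P x < 1 ↔ P.valuation L x < 1 := by
  have := abv_lt_iff P x 1
  rwa [map_one, map_one] at this

/-- approximation of an integral element -/
theorem exists_approx (x : (P.valuation L).integer) :
    ∃ a : 𝓞 L, P.valuation L (algebraMap (𝓞 L) L a - x) < 1 := by
  obtain ⟨a, ha⟩ := P.exists_valuation_sub_lt_of_integer x.2 1
  exact ⟨a, by simpa using ha⟩

noncomputable def app (x : (P.valuation L).integer) : 𝓞 L := (exists_approx P x).choose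

theorem app_spec (x : (P.valuation L).integer) :
    P.valuation L (algebraMap (𝓞 L) L (app P x) - x) < 1 := (exists_approx P x).choose_spec

theorem mk_eq_of (a b : 𝓞 L) (x : L) (ha : P.valuation L (algebraMap (𝓞 L) L a - x) < 1)
    (hb : P.valuation L (algebraMap (𝓞 L) L b - x) < 1) :
    Ideal.Quotient.mk P.asIdeal a = Ideal.Quotient.mk P.asIdeal b := by
  rw [Ideal.Quotient.eq, ← P.valuation_lt_one_iff_mem (K := L)]
  have e : algebraMap (𝓞 L) L (a - b) = (algebraMap (𝓞 L) L a - x) - (algebraMap (𝓞 L) L b - x) := by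
    rw [map_sub]; ring
  have h := Valuation.map_sub (P.valuation L) (algebraMap (𝓞 L) L a - x) (algebraMap (𝓞 L) L b - x)
  rw [← e] at h
  exact lt_of_le_of_lt h (max_lt ha hb)

/-- reduction -/
noncomputable def red : (P.valuation L).integer →+* (𝓞 L ⧸ P.asIdeal) where
  toFun x := Ideal.Quotient.mk P.asIdeal (app P x)
  map_one' := by
    rw [← map_one (Ideal.Quotient.mk P.asIdeal)]
    apply mk_eq_of P _ _ _ (app_spec P 1)
    simp
  map_zero' := by
    rw [← map_zero (Ideal.Quotient.mk P.asIdeal)]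
    apply mk_eq_of P _ _ _ (app_spec P 0)
    simp
  map_add' x y := by
    rw [← map_add (Ideal.Quotient.mk P.asIdeal)]
    apply mk_eq_of P _ _ _ (app_spec P (x + y))
    have e : algebraMap (𝓞 L) L (app P x + app P y) - ((x + y : (P.valuation L).integer) : L) =
      (algebraMap (𝓞 L) L (app P x) - x) + (algebraMap (𝓞 L) L (app P y) - y) := by
      rw [map_add]; push_cast; ring
    rw [e]
    exact lt_of_le_of_lt (Valuation.map_add _ _ _) (max_lt (app_spec P x) (app_spec P y))
  map_mul' x y := by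
    rw [← map_mul (Ideal.Quotient.mk P.asIdeal)]
    apply mk_eq_of P _ _ _ (app_spec P (x * y))
    have e : algebraMap (𝓞 L) L (app P x * app P y) - ((x * y : (P.valuation L).integer) : L) =
      (algebraMap (𝓞 L) L (app P x) - x) * (algebraMap (𝓞 L) L (app P y)) +
        x * (algebraMap (𝓞 L) L (app P y) - y) := by
      rw [map_mul]; push_cast; ring
    rw [e]
    refine lt_of_le_of_lt (Valuation.map_add _ _ _) (max_lt ?_ ?_)
    · rw [map_mul]
      exact lt_of_le_of_lt (mul_le_of_le_one_right' (P.valuation_le_one _)) (app_spec P x)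
    · rw [map_mul]
      exact lt_of_le_of_lt (mul_le_of_le_one_left' x.2) (app_spec P y)

theorem red_eq_zero (x : (P.valuation L).integer) : red P x = 0 ↔ P.valuation L (x : L) < 1 := by
  change Ideal.Quotient.mk P.asIdeal (app P x) = 0 ↔ _
  rw [Ideal.Quotient.eq_zero_iff_mem, ← P.valuation_lt_one_iff_mem (K := L)]
  have h1 := app_spec P x
  constructor
  · intro h
    have e : (x : L) = algebraMap (𝓞 L) L (app P x) - (algebraMap (𝓞 L) L (app P x) - x) := by ring
    rw [e]
    exact lt_of_le_of_lt (Valuation.map_sub _ _ _) (max_lt h h1)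
  · intro h
    have e : algebraMap (𝓞 L) L (app P x) = (algebraMap (𝓞 L) L (app P x) - x) + x := by ring
    change P.valuation L (algebraMap (𝓞 L) L (app P x)) < 1
    rw [e]
    exact lt_of_le_of_lt (Valuation.map_add _ _ _) (max_lt h1 h)

theorem red_surj : Function.Surjective (red P) := by
  intro y
  obtain ⟨a, rfl⟩ := Ideal.Quotient.mk_surjective y
  refine ⟨⟨algebraMap (𝓞 L) L a, P.valuation_le_one a⟩, ?_⟩
  exact mk_eq_of P _ _ _ (app_spec P _) (by simp)

end

theorem t_place : Pool.Agent.N236.UB.S_PLACE := by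
  intro L _ _ M p hp hM
  have hn : 0 < Module.finrank ℚ L := Module.finrank_pos
  have hrk : Module.finrank ℤ (𝓞 L) = Module.finrank ℚ L := RingOfIntegers.rank L
  set n := Module.finrank ℚ L with hndef
  have hspan : Ideal.absNorm (Ideal.span {((p : ℕ) : 𝓞 L)}) = p ^ n := by
    rw [Ideal.absNorm_span_natCast, hrk]
  have hne : Ideal.span {((p : ℕ) : 𝓞 L)} ≠ ⊤ := by
    intro h
    rw [h, Ideal.absNorm_top] at hspan
    have := Nat.one_lt_pow hn.ne' hp.one_lt
    omega
  obtain ⟨I, hI, hle⟩ := Ideal.exists_le_maximal _ hne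
  have hp0 : ((p : ℕ) : 𝓞 L) ≠ 0 := by exact_mod_cast hp.ne_zero
  have hbot : I ≠ ⊥ := by
    rintro rfl
    rw [Ideal.span_le] at hle
    have : ((p : ℕ) : 𝓞 L) ∈ (⊥ : Ideal (𝓞 L)) := hle rfl
    exact hp0 (by simpa using this)
  let P : HeightOneSpectrum (𝓞 L) := ⟨I, hI.isPrime, hbot⟩
  have : P.asIdeal.IsMaximal := hI
  have hdvd : Ideal.absNorm P.asIdeal ∣ p ^ n := by
    rw [← hspan]
    exact Ideal.absNorm_dvd_absNorm_of_le hle
  obtain ⟨f, hfn, hf⟩ := (Nat.dvd_prime_pow hp).mp hdvd
  have hf0 : 1 ≤ f := by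
    rcases Nat.eq_zero_or_pos f with h | h
    · rw [h, pow_zero] at hf
      have := one_lt_absNorm P
      omega
    · exact h
  -- ramification
  set e := multiplicity P.asIdeal (Ideal.span {((p : ℕ) : 𝓞 L)}) with he
  have hval : P.intValuation ((p : ℕ) : 𝓞 L) = exp (-(e : ℤ)) :=
    P.intValuation_eq_exp_neg_multiplicity hp0
  have hmem : P.intValuation ((p : ℕ) : 𝓞 L) < 1 := by
    rw [P.intValuation_lt_one_iff_mem]
    exact hle (Ideal.mem_span_singleton_self _)
  have he0 : 1 ≤ e := by
    rcases Nat.eq_zero_or_pos e with h | h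
    · rw [hval, h] at hmem
      simp at hmem
    · exact h
  have hen : e ≤ n := by
    have h1 : P.asIdeal ^ e ∣ Ideal.span {((p : ℕ) : 𝓞 L)} :=
      (P.intValuation_le_pow_iff_dvd _ _).mp hval.le
    have h2 : Ideal.absNorm (P.asIdeal ^ e) ∣ p ^ n := by
      rw [← hspan]
      exact map_dvd Ideal.absNorm h1
    rw [map_pow, hf, ← pow_mul, Nat.pow_dvd_pow_iff_le_right hp.one_lt] at h2
    exact le_trans (Nat.le_mul_of_pos_left e hf0) h2
  obtain ⟨w, hw⟩ := P.valuation_exists_uniformizer L
  have hvp : P.valuation L (p : L) = exp (-(e : ℤ)) := by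
    rw [← hval, ← P.valuation_of_algebraMap (K := L)]
    simp
  refine ⟨NumberField.HeightOneSpectrum.adicAbv L P, f, e, hf0, le_trans hfn hM, he0, le_trans hen hM,
    fun x y => adicAbv_add_le_max L P x y, ⟨w, ?_, ?_, ?_, ?_⟩, ?_, ?_⟩
  · rw [AbsoluteValue.pos_iff]
    rintro rfl
    simp only [map_zero] at hw
    exact exp_ne_zero hw.symm
  · rw [abv_lt_one_iff, hw]
    rw [← exp_zero, exp_lt_exp]
    norm_num
  · intro x hx
    rw [abv_lt_one_iff] at hx
    rw [abv_le_iff, hw]
    by_cases h0 : P.valuation L x = 0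
    · rw [h0]; exact zero_le
    · rw [← exp_log h0, exp_le_exp]
      rw [← exp_log h0, ← exp_zero, exp_lt_exp] at hx
      omega
  · rw [← map_pow, abv_le_iff, map_pow, hw, hvp]
    rw [← exp_nsmul]
    simp
  · rw [abv_lt_one_iff, hvp, ← exp_zero, exp_lt_exp]
    omega
  · have hfin : Finite (𝓞 L ⧸ P.asIdeal) := P.asIdeal.finiteQuotientOfFreeOfNeBot P.ne_bot
    refine ⟨(P.valuation L).integer, 𝓞 L ⧸ P.asIdeal, Ideal.Quotient.field P.asIdeal,
      Fintype.ofFinite _, red P, fun x => ?_, fun x => ?_, red_surj P, ?_⟩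
    · rw [abv_le_one_iff]; rfl
    · rw [abv_lt_one_iff]; exact red_eq_zero P x
    · rw [← hf, Ideal.absNorm_apply, Submodule.cardQuot_apply]
      exact (@Nat.card_eq_fintype_card _ (Fintype.ofFinite _)).symm

end Pool.Agent.N624.UB
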